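import Pool.Agent.Helper20.EH.Rev
import Pool.Agent.Helper20.CKP.UNK
import Pool.Agent.Helper20.CKP.IsoK
import Pool.Agent.Helper20.CKP.ROneK
import Pool.Agent.Helper29.CKP.RankK

set_option autoImplicit false

/-!
# Homotopies of matrices with the same products `B Bᴴ`
-/

open NormedSpace Filter Topology Matrix Module Pool.Agent.Helper17.CKF Pool.Agent.Helper40.CK
open Pool.Agent.Helper29.CKP Pool.Agent.Helper20.CKP
open scoped ComplexOrder

namespace Pool.Agent.Helper20.EH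

/-- The criterion for subgroups of `U(r, n)`: a homotopy of matrices with the same products
`B Bᴴ` as elements of `p_H`. -/
theorem lt_of_path {K : Type} [RCLike K] {r n : ℕ} {H : Subgroup (UpqK K r n)}
    (hH : IsReductive (H.map (UpqK K r n).subtype)) (had : AdmitsCocompact H) {v : ℕ}
    (g : ℝ → (Fin v → ℝ) → Matrix (Fin r) (Fin n) K)
    (hg : ContinuousOn (fun z : ℝ × (Fin v → ℝ) => g z.1 z.2) (Set.Icc 0 1 ×ˢ {0}ᶜ))
    (hmem : ∀ t ∈ Set.Icc (0 : ℝ) 1, ∀ y, y ≠ 0 → ∃ B : Matrix (Fin r) (Fin n) K, B ≠ 0 ∧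
      pcK K r n B ∈ pSpace (H.map (UpqK K r n).subtype) ∧ g t y * (g t y)ᴴ = B * Bᴴ)
    (hodd : ∀ y, y ≠ 0 → g 0 (-y) = -g 0 y) (S : Fin v → Bool)
    (hS : ((∃ i, S i = true) ∧ ∀ y, y ≠ 0 → g 1 (chg S y) = g 1 y) ∨
      (Odd (Finset.univ.filter fun i => S i = true).card ∧
        ∀ y, y ≠ 0 → g 1 y = g 0 (chg S y))) :
    v < finrank ℝ (pSpace (H.map (UpqK K r n).subtype)) := by
  obtain ⟨Γ, hΓ⟩ := had
  set M := oneM (isReductive_upqK K r n).closed with hM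
  have hCG : Cartan M ⊤ (pSpace (UpqK K r n)) := cartan_top (isReductive_upqK K r n)
  have hCH : Cartan M H (pSpace (H.map (UpqK K r n).subtype)) := cartan_one _ hH
  have hPc : Continuous (pcK K r n) := (pcK K r n).continuous_of_finiteDimensional
  have h1 : ContinuousOn (fun z : ℝ × (Fin v → ℝ) => pcK K r n (g z.1 z.2))
      (Set.Icc 0 1 ×ˢ {0}ᶜ) := hPc.comp_continuousOn hg
  have h2 : ∀ t ∈ Set.Icc (0 : ℝ) 1, ∀ y, y ≠ 0 → pcK K r n (g t y) ≠ 0 := by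
    intro t ht y hy h
    obtain ⟨B, hB0, -, e⟩ := hmem t ht y hy
    have h3 : g t y = 0 := pcK_inj (h.trans (map_zero _).symm)
    rw [h3, Matrix.zero_mul] at e
    exact hB0 (Matrix.self_mul_conjTranspose_eq_zero.1 e.symm)
  have h3 : ∀ t ∈ Set.Icc (0 : ℝ) 1, ∀ y, y ≠ 0 → ∃ k : UpqK K r n, M.ι k * (M.ι k)ᵀ = 1 ∧
      ∃ Y ∈ pSpace (H.map (UpqK K r n).subtype), pcK K r n (g t y) = M.ι k * Y * (M.ι k)ᵀ := by
    intro t ht y hy
    obtain ⟨B, hB0, hB, e⟩ := hmem t ht y hy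
    obtain ⟨W, hW, hW'⟩ := exists_unitary e
    have hW1 : Wᴴ * Wᴴᴴ = 1 := by
      rw [conjTranspose_conjTranspose]
      exact mul_eq_one_comm.1 hW
    obtain ⟨k, hk, hk1, hk2⟩ := conj_upqK (K := K) (r := r) (n := n) (U := 1) (W := Wᴴ)
      (by rw [conjTranspose_one, Matrix.one_mul]) hW1
    refine ⟨⟨k, hk⟩, hk1, pcK K r n B, hB, ?_⟩
    have h5 := hk2 B
    rw [Matrix.one_mul, conjTranspose_conjTranspose, ← hW'] at h5
    exact h5.symm
  have h4 : ∀ y, y ≠ 0 → pcK K r n (g 0 (-y)) = -pcK K r n (g 0 y) := by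
    intro y hy
    rw [hodd y hy, map_neg]
  rcases hS with ⟨h5, h6⟩ | ⟨h5, h6⟩
  · exact even_coindex M hCG hCH hΓ (fun t y => pcK K r n (g t y)) h1 h2 h3 h4 S h5
      fun y hy => by
        show pcK K r n (g 1 (chg S y)) = pcK K r n (g 1 y)
        rw [h6 y hy]
  · exact rev_coindex M hCG hCH hΓ (fun t y => pcK K r n (g t y)) h1 h2 h3 h4 S h5
      fun y hy => by
        show pcK K r n (g 1 y) = pcK K r n (g 0 (chg S y))
        rw [h6 y hy]

/-- The same with a parametrisation of `p_H` by a space of parameters. -/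
theorem false_of_path {K : Type} [RCLike K] {r n : ℕ} {H : Subgroup (UpqK K r n)}
    (hH : IsReductive (H.map (UpqK K r n).subtype)) (had : AdmitsCocompact H) {v : ℕ}
    (hv : finrank ℝ (pSpace (H.map (UpqK K r n).subtype)) = v)
    (g : ℝ → (Fin v → ℝ) → Matrix (Fin r) (Fin n) K)
    (hg : ContinuousOn (fun z : ℝ × (Fin v → ℝ) => g z.1 z.2) (Set.Icc 0 1 ×ˢ {0}ᶜ))
    (hmem : ∀ t ∈ Set.Icc (0 : ℝ) 1, ∀ y, y ≠ 0 → ∃ B : Matrix (Fin r) (Fin n) K, B ≠ 0 ∧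
      pcK K r n B ∈ pSpace (H.map (UpqK K r n).subtype) ∧ g t y * (g t y)ᴴ = B * Bᴴ)
    (hodd : ∀ y, y ≠ 0 → g 0 (-y) = -g 0 y) (S : Fin v → Bool)
    (hS : ((∃ i, S i = true) ∧ ∀ y, y ≠ 0 → g 1 (chg S y) = g 1 y) ∨
      (Odd (Finset.univ.filter fun i => S i = true).card ∧
        ∀ y, y ≠ 0 → g 1 y = g 0 (chg S y))) : False := by
  have := lt_of_path hH had g hg hmem hodd S hS
  omega

end Pool.Agent.Helper20.EH
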