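import Pool.Agent.Helper20.EH.Unit

set_option autoImplicit false

/-!
# Subgroups of `U(r, n)` in a corner
-/

open NormedSpace Filter Topology Matrix Module Pool.Agent.Helper17.CKF Pool.Agent.Helper40.CK
open Pool.Agent.Helper29.CKP Pool.Agent.Helper20.CKP
open scoped ComplexOrder

namespace Pool.Agent.Helper20.EH

/-- The criterion for subgroups of `U(r, n)`, for both actions. -/
theorem lt_of_path' {K : Type} [RCLike K] {r n : ℕ} {H : Subgroup (UpqK K r n)}
    (hH : IsReductive (H.map (UpqK K r n).subtype)) (had : AdmitsCocompact H) {v : ℕ}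
    (g : ℝ → (Fin v → ℝ) → Matrix (Fin r) (Fin n) K)
    (hg : ContinuousOn (fun z : ℝ × (Fin v → ℝ) => g z.1 z.2) (Set.Icc 0 1 ×ˢ {0}ᶜ))
    (hmem : ∀ t ∈ Set.Icc (0 : ℝ) 1, ∀ y, y ≠ 0 → ∃ B : Matrix (Fin r) (Fin n) K, B ≠ 0 ∧
      pcK K r n B ∈ pSpace (H.map (UpqK K r n).subtype) ∧
      (g t y * (g t y)ᴴ = B * Bᴴ ∨ (g t y)ᴴ * g t y = Bᴴ * B))
    (hodd : ∀ y, y ≠ 0 → g 0 (-y) = -g 0 y) (S : Fin v → Bool)
    (hS : (∃ i, S i = true)) (hev : ∀ y, y ≠ 0 → g 1 (chg S y) = g 1 y) :
    v < finrank ℝ (pSpace (H.map (UpqK K r n).subtype)) := by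
  obtain ⟨Γ, hΓ⟩ := had
  set M := oneM (isReductive_upqK K r n).closed with hM
  have hCG : Cartan M ⊤ (pSpace (UpqK K r n)) := cartan_top (isReductive_upqK K r n)
  have hCH : Cartan M H (pSpace (H.map (UpqK K r n).subtype)) := cartan_one _ hH
  have hPc : Continuous (pcK K r n) := (pcK K r n).continuous_of_finiteDimensional
  have h1 : ContinuousOn (fun z : ℝ × (Fin v → ℝ) => pcK K r n (g z.1 z.2))
      (Set.Icc 0 1 ×ˢ {0}ᶜ) := hPc.comp_continuousOn hg
  have h2 : ∀ t ∈ Set.Icc (0 : ℝ) 1, ∀ y, y ≠ 0 → pcK K r n (g t y) ≠ 0 := by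
    intro t ht y hy h
    obtain ⟨B, hB0, -, e⟩ := hmem t ht y hy
    have h3 : g t y = 0 := pcK_inj (h.trans (map_zero _).symm)
    rcases e with e | e
    · rw [h3, Matrix.zero_mul] at e
      exact hB0 (Matrix.self_mul_conjTranspose_eq_zero.1 e.symm)
    · rw [h3, Matrix.mul_zero] at e
      exact hB0 (Matrix.conjTranspose_mul_self_eq_zero.1 e.symm)
  have h3 : ∀ t ∈ Set.Icc (0 : ℝ) 1, ∀ y, y ≠ 0 → ∃ k : UpqK K r n, M.ι k * (M.ι k)ᵀ = 1 ∧
      ∃ Y ∈ pSpace (H.map (UpqK K r n).subtype), pcK K r n (g t y) = M.ι k * Y * (M.ι k)ᵀ := by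
    intro t ht y hy
    obtain ⟨B, hB0, hB, e⟩ := hmem t ht y hy
    rcases e with e | e
    · obtain ⟨W, hW, hW'⟩ := exists_unitary e
      have hW1 : Wᴴ * Wᴴᴴ = 1 := by
        rw [conjTranspose_conjTranspose]
        exact mul_eq_one_comm.1 hW
      obtain ⟨k, hk, hk1, hk2⟩ := conj_upqK (K := K) (r := r) (n := n) (U := 1) (W := Wᴴ)
        (by rw [conjTranspose_one, Matrix.one_mul]) hW1
      refine ⟨⟨k, hk⟩, hk1, pcK K r n B, hB, ?_⟩
      have h5 := hk2 B
      rw [Matrix.one_mul, conjTranspose_conjTranspose, ← hW'] at h5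
      exact h5.symm
    · have e' : (g t y)ᴴ * ((g t y)ᴴ)ᴴ = Bᴴ * (Bᴴ)ᴴ := by
        rw [conjTranspose_conjTranspose, conjTranspose_conjTranspose]
        exact e
      obtain ⟨W, hW, hW'⟩ := exists_unitary e'
      have hW1 : Wᴴ * Wᴴᴴ = 1 := by
        rw [conjTranspose_conjTranspose]
        exact mul_eq_one_comm.1 hW
      have h6 : g t y = Wᴴ * B := by
        have := congrArg Matrix.conjTranspose hW'
        rwa [conjTranspose_conjTranspose, conjTranspose_mul, conjTranspose_conjTranspose] at this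
      obtain ⟨k, hk, hk1, hk2⟩ := conj_upqK (K := K) (r := r) (n := n) (U := Wᴴ) (W := 1)
        hW1 (by rw [conjTranspose_one, Matrix.one_mul])
      refine ⟨⟨k, hk⟩, hk1, pcK K r n B, hB, ?_⟩
      have h5 := hk2 B
      rw [conjTranspose_one, Matrix.mul_one, ← h6] at h5
      exact h5.symm
  have h4 : ∀ y, y ≠ 0 → pcK K r n (g 0 (-y)) = -pcK K r n (g 0 y) := by
    intro y hy
    rw [hodd y hy, map_neg]
  exact even_coindex M hCG hCH hΓ (fun t y => pcK K r n (g t y)) h1 h2 h3 h4 S hS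
    fun y hy => by
      show pcK K r n (g 1 (chg S y)) = pcK K r n (g 1 y)
      rw [hev y hy]

/-- The inclusion of the coordinates. -/
def inc (K : Type) [RCLike K] {k n : ℕ} (f : Fin k → Fin n) : Matrix (Fin n) (Fin k) K :=
  Matrix.of fun i a => if i = f a then 1 else 0

theorem inc_mul {K : Type} [RCLike K] {k l n : ℕ} (f : Fin k → Fin n) (f' : Fin l → Fin n) :
    (inc K f)ᴴ * inc K f' = Matrix.of fun a b => if f a = f' b then (1 : K) else 0 := by
  ext a b
  rw [Matrix.mul_apply, Matrix.of_apply]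
  simp only [conjTranspose_apply, inc, Matrix.of_apply]
  rw [Finset.sum_eq_single (f a)]
  · simp
  · intro i _ hi
    simp [hi]
  · intro h
    exact absurd (Finset.mem_univ _) h

/-- Orthonormal columns which are orthogonal to given ones. -/
theorem exists_isometry {K : Type} [RCLike K] {n n' r' : ℕ} (h : n' + r' ≤ n)
    (W : Matrix (Fin n) (Fin n') K) (hW : Wᴴ * W = 1) :
    ∃ J : Matrix (Fin n) (Fin r') K, Jᴴ * J = 1 ∧ Wᴴ * J = 0 := by
  let f : Fin n' → Fin n := fun a => ⟨a, by omega⟩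
  let f' : Fin r' → Fin n := fun a => ⟨n' + a, by omega⟩
  have hf : (inc K f)ᴴ * inc K f = 1 := by
    rw [inc_mul]
    ext a b
    rw [Matrix.of_apply, Matrix.one_apply]
    by_cases hab : a = b
    · rw [if_pos (by rw [hab]), if_pos hab]
    · rw [if_neg ?_, if_neg hab]
      intro h1
      apply hab
      have := congrArg Fin.val h1
      exact Fin.ext this
  have hf' : (inc K f')ᴴ * inc K f' = 1 := by
    rw [inc_mul]
    ext a b
    rw [Matrix.of_apply, Matrix.one_apply]
    by_cases hab : a = b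
    · rw [if_pos (by rw [hab]), if_pos hab]
    · rw [if_neg ?_, if_neg hab]
      intro h1
      apply hab
      have := congrArg Fin.val h1
      simp only [f'] at this
      exact Fin.ext (by omega)
  have hff' : (inc K f)ᴴ * inc K f' = 0 := by
    rw [inc_mul]
    ext a b
    rw [Matrix.of_apply, Matrix.zero_apply, if_neg]
    intro h1
    have := congrArg Fin.val h1
    simp only [f, f'] at this
    have := a.2
    omega
  have e : Wᴴ * (Wᴴ)ᴴ = (inc K f)ᴴ * ((inc K f)ᴴ)ᴴ := by
    rw [conjTranspose_conjTranspose, conjTranspose_conjTranspose, hW, hf]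
  obtain ⟨V, hV, hV'⟩ := exists_unitary e
  refine ⟨Vᴴ * inc K f', ?_, ?_⟩
  · rw [conjTranspose_mul, conjTranspose_conjTranspose, Matrix.mul_assoc, ← Matrix.mul_assoc V,
      hV, Matrix.one_mul, hf']
  · rw [hV', Matrix.mul_assoc, ← Matrix.mul_assoc V, hV, Matrix.one_mul, hff']

theorem no_corner {K : Type} [RCLike K]
    (hs : ∀ a b : ℕ, ∃ s : Matrix (Fin a) (Fin b) K → Matrix (Fin a) (Fin a) K, Continuous s ∧
      (∀ A, s A * (s A)ᴴ = A * Aᴴ) ∧ ∀ A, s (-A) = s A)
    {r n r' n' : ℕ} (hrn : r' + n' ≤ n ∨ r' + n' ≤ r) {H : Subgroup (UpqK K r n)}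
    (hH : IsReductive (H.map (UpqK K r n).subtype)) (had : AdmitsCocompact H)
    (U : Matrix (Fin r) (Fin r') K) (W : Matrix (Fin n) (Fin n') K) (hU : Uᴴ * U = 1)
    (hW : Wᴴ * W = 1) (hUW : ∀ X ∈ pSpace (H.map (UpqK K r n).subtype),
      ∃ A : Matrix (Fin r') (Fin n') K, X = pcK K r n (U * A * Wᴴ)) :
    pSpace (H.map (UpqK K r n).subtype) = ⊥ := by
  by_contra h0
  have D := pdataK K r n
  have hfin := D.finrank_comap hH
  set q := pSpace (H.map (UpqK K r n).subtype) with hq
  set Q := q.comap (pcK K r n) with hQ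
  have hpos : 0 < finrank ℝ q := Nat.pos_of_ne_zero fun h => h0 (Submodule.finrank_eq_zero.1 h)
  let e : (Fin (finrank ℝ q) → ℝ) ≃ₗ[ℝ] Q := LinearEquiv.ofFinrankEq _ _ (by
    rw [Module.finrank_fin_fun, hfin])
  let B : (Fin (finrank ℝ q) → ℝ) → Matrix (Fin r) (Fin n) K := fun y => (e y).1
  have hBc : Continuous B := by
    have h1 : Continuous e := LinearMap.continuous_of_finiteDimensional e.toLinearMap
    exact continuous_subtype_val.comp h1
  have hB0 : ∀ y, y ≠ 0 → B y ≠ 0 := by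
    intro y hy h
    apply hy
    have h1 : e y = 0 := Subtype.ext h
    exact (LinearEquiv.map_eq_zero_iff e).1 h1
  have hBneg : ∀ y, B (-y) = -B y := by
    intro y
    show (e (-y)).1 = -(e y).1
    rw [map_neg]
    rfl
  have hBq : ∀ y, pcK K r n (B y) ∈ q := fun y => (e y).2
  let A : (Fin (finrank ℝ q) → ℝ) → Matrix (Fin r') (Fin n') K := fun y => Uᴴ * B y * W
  have hAc : Continuous A :=
    (Continuous.matrix_mul continuous_const hBc).matrix_mul continuous_const
  have hAneg : ∀ y, A (-y) = -A y := by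
    intro y
    show Uᴴ * B (-y) * W = -(Uᴴ * B y * W)
    rw [hBneg, Matrix.mul_neg, Matrix.neg_mul]
  have hBA : ∀ y, B y = U * A y * Wᴴ := by
    intro y
    obtain ⟨A', hA'⟩ := hUW _ (hBq y)
    have h1 : B y = U * A' * Wᴴ := pcK_inj hA'
    have h2 : A y = A' := by
      show Uᴴ * B y * W = A'
      rw [h1]
      calc Uᴴ * (U * A' * Wᴴ) * W = (Uᴴ * U) * A' * (Wᴴ * W) := by simp only [Matrix.mul_assoc]
        _ = A' := by rw [hU, hW, Matrix.one_mul, Matrix.mul_one]
    rw [h2, h1]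
  have hcs : ∀ t : ℝ, (Real.cos t) ^ 2 + (Real.sin t) ^ 2 = 1 := Real.cos_sq_add_sin_sq
  have hS : ∃ i : Fin (finrank ℝ q), (fun _ => true : Fin (finrank ℝ q) → Bool) i = true :=
    ⟨⟨0, hpos⟩, rfl⟩
  have hchg : ∀ y : Fin (finrank ℝ q) → ℝ, chg (fun _ => true) y = -y := by
    intro y
    funext i
    show (if true = true then -y i else y i) = -y i
    rw [if_pos rfl]
  have hcos : Continuous fun z : ℝ × (Fin (finrank ℝ q) → ℝ) => Real.cos (Real.pi / 2 * z.1) :=
    by fun_prop
  have hsin : Continuous fun z : ℝ × (Fin (finrank ℝ q) → ℝ) => Real.sin (Real.pi / 2 * z.1) :=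
    by fun_prop
  have hc0 : Real.cos (Real.pi / 2 * 0) = 1 := by simp
  have hs0 : Real.sin (Real.pi / 2 * 0) = 0 := by simp
  have hc1 : Real.cos (Real.pi / 2 * 1) = 0 := by simp
  have hs1 : Real.sin (Real.pi / 2 * 1) = 1 := by simp
  rcases hrn with hrn | hrn
  · obtain ⟨J, hJ, hWJ⟩ := exists_isometry (r' := r') (by omega) W hW
    obtain ⟨s, hsc, hss, hsn⟩ := hs r' n'
    have hJW : Jᴴ * W = 0 := by
      have := congrArg Matrix.conjTranspose hWJ
      rwa [conjTranspose_mul, conjTranspose_conjTranspose, conjTranspose_zero] at this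
    have h1 := lt_of_path' hH had (v := finrank ℝ q)
      (fun t y => Real.cos (Real.pi / 2 * t) • (U * A y * Wᴴ) +
        Real.sin (Real.pi / 2 * t) • (U * s (A y) * Jᴴ)) ?_ ?_ ?_ (fun _ => true) hS ?_
    · exact lt_irrefl _ h1
    · refine Continuous.continuousOn ?_
      have h2 : Continuous fun z : ℝ × (Fin (finrank ℝ q) → ℝ) => A z.2 :=
        hAc.comp continuous_snd
      refine (hcos.smul ?_).add (hsin.smul ?_)
      · exact (Continuous.matrix_mul continuous_const h2).matrix_mul continuous_const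
      · exact (Continuous.matrix_mul continuous_const (hsc.comp h2)).matrix_mul continuous_const
    · intro t _ y hy
      refine ⟨B y, hB0 y hy, hBq y, Or.inl ?_⟩
      generalize Real.pi / 2 * t = θ
      have h3 : ∀ X Y : Matrix (Fin r) (Fin n) K, X * Yᴴ = 0 → Y * Xᴴ = 0 → X * Xᴴ = Y * Yᴴ →
          (Real.cos θ • X + Real.sin θ • Y) * (Real.cos θ • X + Real.sin θ • Y)ᴴ = X * Xᴴ := by
        intro X Y hXY hYX hXX
        rw [conjTranspose_add, conjTranspose_smul, conjTranspose_smul, star_trivial, star_trivial,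
          Matrix.mul_add, Matrix.add_mul, Matrix.add_mul, Matrix.smul_mul, Matrix.mul_smul,
          Matrix.smul_mul, Matrix.mul_smul, Matrix.smul_mul, Matrix.mul_smul, Matrix.smul_mul,
          Matrix.mul_smul, hXY, hYX, ← hXX]
        simp only [smul_zero, add_zero, zero_add, smul_smul, ← add_smul, ← sq, hcs, one_smul]
      rw [h3, ← hBA]
      · rw [conjTranspose_mul, conjTranspose_conjTranspose]
        calc U * A y * Wᴴ * (J * (U * s (A y))ᴴ) = U * A y * (Wᴴ * J) * (U * s (A y))ᴴ := by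
              simp only [Matrix.mul_assoc]
          _ = 0 := by rw [hWJ, Matrix.mul_zero, Matrix.zero_mul]
      · rw [conjTranspose_mul, conjTranspose_conjTranspose]
        calc U * s (A y) * Jᴴ * (W * (U * A y)ᴴ) = U * s (A y) * (Jᴴ * W) * (U * A y)ᴴ := by
              simp only [Matrix.mul_assoc]
          _ = 0 := by rw [hJW, Matrix.mul_zero, Matrix.zero_mul]
      · have h4 : U * A y * Wᴴ * (U * A y * Wᴴ)ᴴ = U * (A y * (A y)ᴴ) * Uᴴ := by
          rw [conjTranspose_mul, conjTranspose_mul, conjTranspose_conjTranspose]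
          calc U * A y * Wᴴ * (W * ((A y)ᴴ * Uᴴ)) = U * A y * (Wᴴ * W) * ((A y)ᴴ * Uᴴ) := by
                simp only [Matrix.mul_assoc]
            _ = _ := by
                rw [hW, Matrix.mul_one]
                simp only [Matrix.mul_assoc]
        have h5 : U * s (A y) * Jᴴ * (U * s (A y) * Jᴴ)ᴴ = U * (s (A y) * (s (A y))ᴴ) * Uᴴ := by
          rw [conjTranspose_mul, conjTranspose_mul, conjTranspose_conjTranspose]
          calc U * s (A y) * Jᴴ * (J * ((s (A y))ᴴ * Uᴴ)) =
                U * s (A y) * (Jᴴ * J) * ((s (A y))ᴴ * Uᴴ) := by simp only [Matrix.mul_assoc]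
            _ = _ := by
                rw [hJ, Matrix.mul_one]
                simp only [Matrix.mul_assoc]
        rw [h4, h5, hss]
    · intro y _
      rw [hc0, hs0, hAneg, zero_smul, zero_smul, add_zero, add_zero, one_smul, one_smul,
        Matrix.mul_neg, Matrix.neg_mul]
    · intro y _
      rw [hchg, hc1, hs1, hAneg, hsn, zero_smul, zero_smul]
  · obtain ⟨J, hJ, hUJ⟩ := exists_isometry (r' := n') hrn U hU
    obtain ⟨s, hsc, hss, hsn⟩ := hs n' r'
    have hJU : Jᴴ * U = 0 := by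
      have := congrArg Matrix.conjTranspose hUJ
      rwa [conjTranspose_mul, conjTranspose_conjTranspose, conjTranspose_zero] at this
    have h1 := lt_of_path' hH had (v := finrank ℝ q)
      (fun t y => Real.cos (Real.pi / 2 * t) • (U * A y * Wᴴ) +
        Real.sin (Real.pi / 2 * t) • (J * (s (A y)ᴴ)ᴴ * Wᴴ)) ?_ ?_ ?_ (fun _ => true) hS ?_
    · exact lt_irrefl _ h1
    · refine Continuous.continuousOn ?_
      have h2 : Continuous fun z : ℝ × (Fin (finrank ℝ q) → ℝ) => A z.2 :=
        hAc.comp continuous_snd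
      refine (hcos.smul ?_).add (hsin.smul ?_)
      · exact (Continuous.matrix_mul continuous_const h2).matrix_mul continuous_const
      · exact (Continuous.matrix_mul continuous_const
          (hsc.comp h2.matrix_conjTranspose).matrix_conjTranspose).matrix_mul continuous_const
    · intro t _ y hy
      refine ⟨B y, hB0 y hy, hBq y, Or.inr ?_⟩
      generalize Real.pi / 2 * t = θ
      have h3 : ∀ X Y : Matrix (Fin r) (Fin n) K, Xᴴ * Y = 0 → Yᴴ * X = 0 → Xᴴ * X = Yᴴ * Y →
          (Real.cos θ • X + Real.sin θ • Y)ᴴ * (Real.cos θ • X + Real.sin θ • Y) = Xᴴ * X := by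
        intro X Y hXY hYX hXX
        rw [conjTranspose_add, conjTranspose_smul, conjTranspose_smul, star_trivial, star_trivial,
          Matrix.mul_add, Matrix.add_mul, Matrix.add_mul, Matrix.smul_mul, Matrix.mul_smul,
          Matrix.smul_mul, Matrix.mul_smul, Matrix.smul_mul, Matrix.mul_smul, Matrix.smul_mul,
          Matrix.mul_smul, hXY, hYX, ← hXX]
        simp only [smul_zero, add_zero, zero_add, smul_smul, ← add_smul, ← sq, hcs, one_smul]
      rw [h3, ← hBA]
      · rw [conjTranspose_mul, conjTranspose_mul, conjTranspose_conjTranspose]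
        calc W * ((A y)ᴴ * Uᴴ) * (J * (s (A y)ᴴ)ᴴ * Wᴴ) =
              W * (A y)ᴴ * (Uᴴ * J) * ((s (A y)ᴴ)ᴴ * Wᴴ) := by simp only [Matrix.mul_assoc]
          _ = 0 := by rw [hUJ, Matrix.mul_zero, Matrix.zero_mul]
      · rw [conjTranspose_mul, conjTranspose_mul, conjTranspose_conjTranspose,
          conjTranspose_conjTranspose]
        calc W * (s (A y)ᴴ * Jᴴ) * (U * A y * Wᴴ) =
              W * s (A y)ᴴ * (Jᴴ * U) * (A y * Wᴴ) := by simp only [Matrix.mul_assoc]
          _ = 0 := by rw [hJU, Matrix.mul_zero, Matrix.zero_mul]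
      · have h4 : (U * A y * Wᴴ)ᴴ * (U * A y * Wᴴ) = W * ((A y)ᴴ * A y) * Wᴴ := by
          rw [conjTranspose_mul, conjTranspose_mul, conjTranspose_conjTranspose]
          calc W * ((A y)ᴴ * Uᴴ) * (U * A y * Wᴴ) = W * (A y)ᴴ * (Uᴴ * U) * (A y * Wᴴ) := by
                simp only [Matrix.mul_assoc]
            _ = _ := by
                rw [hU, Matrix.mul_one]
                simp only [Matrix.mul_assoc]
        have h5 : (J * (s (A y)ᴴ)ᴴ * Wᴴ)ᴴ * (J * (s (A y)ᴴ)ᴴ * Wᴴ) =
            W * (s (A y)ᴴ * (s (A y)ᴴ)ᴴ) * Wᴴ := by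
          rw [conjTranspose_mul, conjTranspose_mul, conjTranspose_conjTranspose,
            conjTranspose_conjTranspose]
          calc W * (s (A y)ᴴ * Jᴴ) * (J * (s (A y)ᴴ)ᴴ * Wᴴ) =
                W * s (A y)ᴴ * (Jᴴ * J) * ((s (A y)ᴴ)ᴴ * Wᴴ) := by simp only [Matrix.mul_assoc]
            _ = _ := by
                rw [hJ, Matrix.mul_one]
                simp only [Matrix.mul_assoc]
        rw [h4, h5, hss, conjTranspose_conjTranspose]
    · intro y _
      rw [hc0, hs0, hAneg, zero_smul, zero_smul, add_zero, add_zero, one_smul, one_smul,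
        Matrix.mul_neg, Matrix.neg_mul]
    · intro y _
      rw [hchg, hc1, hs1, hAneg, conjTranspose_neg, hsn, zero_smul, zero_smul]

end Pool.Agent.Helper20.EH
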