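import Pool.Agent.Helper20.EH.Lin
import Pool.Agent.Helper29.CKP.Coind

set_option autoImplicit false

/-!
# Homotopies of maps into the set of the conjugates of `q`
-/

open NormedSpace Filter Topology Matrix Module Pool.Agent.Helper17.CKF Pool.Agent.Helper40.CK
open Pool.Agent.Helper29.CKP

namespace Pool.Agent.Helper20.EH

variable {m : ℕ}

theorem fro_zero : fro (0 : Matrix (Fin m) (Fin m) ℝ) = 0 := by
  rw [fro, show fn (0 : Matrix (Fin m) (Fin m) ℝ) = 0 by simp [fn], Real.sqrt_zero]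

/-- The rescaled maps form a continuous family. -/
theorem continuousOn_resc {v : ℕ} {g : ℝ → (Fin v → ℝ) → Matrix (Fin m) (Fin m) ℝ}
    (hg : ContinuousOn (fun z : ℝ × (Fin v → ℝ) => g z.1 z.2) (Set.Icc 0 1 ×ˢ {0}ᶜ))
    (h0 : ∀ t ∈ Set.Icc (0 : ℝ) 1, ∀ y, y ≠ 0 → g t y ≠ 0) :
    ContinuousOn (fun z : ℝ × (Fin v → ℝ) => resc (fun y => ‖y‖) (g z.1) z.2)
      (Set.Icc 0 1 ×ˢ Set.univ) := by
  rintro ⟨t, y⟩ ⟨ht, -⟩
  have ht' : t ∈ Set.Icc (0 : ℝ) 1 := ht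
  by_cases hy : y = 0
  · subst hy
    have h1 : resc (fun y : Fin v → ℝ => ‖y‖) (g t) 0 = 0 := by
      rw [resc, norm_zero, zero_mul, zero_smul]
    show Tendsto _ _ (𝓝 (resc (fun y : Fin v → ℝ => ‖y‖) (g t) 0))
    rw [h1]
    refine tendsto_pi_nhds.2 fun i => tendsto_pi_nhds.2 fun j => ?_
    have h2 : Tendsto (fun z : ℝ × (Fin v → ℝ) => ‖z.2‖)
        (𝓝[Set.Icc 0 1 ×ˢ Set.univ] (t, 0)) (𝓝 0) := by
      have h3 : Tendsto (fun z : ℝ × (Fin v → ℝ) => ‖z.2‖) (𝓝 (t, 0)) (𝓝 ‖(0 : Fin v → ℝ)‖) :=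
        (continuous_snd.norm).tendsto (t, (0 : Fin v → ℝ))
      rw [norm_zero] at h3
      exact h3.mono_left nhdsWithin_le_nhds
    refine squeeze_zero_norm (fun z => ?_) h2
    show ‖(‖z.2‖ * (fro (g z.1 z.2))⁻¹) * g z.1 z.2 i j‖ ≤ ‖z.2‖
    rw [Real.norm_eq_abs, abs_mul, abs_mul, mul_assoc, abs_of_nonneg (norm_nonneg z.2)]
    have h2 : |(fro (g z.1 z.2))⁻¹| * |g z.1 z.2 i j| ≤ 1 := by
      have h3 : 0 ≤ fro (g z.1 z.2) := Real.sqrt_nonneg _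
      rw [abs_of_nonneg (inv_nonneg.2 h3)]
      rcases h3.eq_or_lt with h4 | h4
      · rw [← h4, _root_.inv_zero, zero_mul]
        exact zero_le_one
      · rw [inv_mul_le_iff₀ h4, mul_one]
        exact abs_le_fro _ i j
    calc ‖z.2‖ * (|(fro (g z.1 z.2))⁻¹| * |g z.1 z.2 i j|) ≤ ‖z.2‖ * 1 :=
          mul_le_mul_of_nonneg_left h2 (norm_nonneg _)
      _ = ‖z.2‖ := mul_one _
  · have h1 : ContinuousWithinAt (fun z : ℝ × (Fin v → ℝ) => g z.1 z.2)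
        (Set.Icc 0 1 ×ˢ Set.univ) (t, y) := by
      refine (hg (t, y) ⟨ht', hy⟩).mono_of_mem_nhdsWithin ?_
      have h2 : (Set.univ ×ˢ {0}ᶜ : Set (ℝ × (Fin v → ℝ))) ∈ 𝓝 (t, y) :=
        (isOpen_univ.prod isOpen_compl_singleton).mem_nhds ⟨trivial, hy⟩
      filter_upwards [self_mem_nhdsWithin, mem_nhdsWithin_of_mem_nhds h2] with z hz hz'
      exact ⟨hz.1, hz'.2⟩
    have h2 : ContinuousWithinAt (fun z : ℝ × (Fin v → ℝ) => (fro (g z.1 z.2))⁻¹)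
        (Set.Icc 0 1 ×ˢ Set.univ) (t, y) :=
      (continuous_fro.continuousAt.comp_continuousWithinAt h1).inv₀ (fro_pos (h0 t ht' y hy)).ne'
    exact ((continuous_snd.norm.continuousWithinAt).mul h2).smul h1

variable {G : Type} [Group G] [TopologicalSpace G] [IsTopologicalGroup G]

/-- The join of an odd map with values outside of the set of the conjugates of `q` with a family of
maps into this set. -/
theorem exists_join (M : MatGroup G m) {p q : Submodule ℝ (Matrix (Fin m) (Fin m) ℝ)}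
    {H Γ : Subgroup G} (hG : Cartan M ⊤ p) (hH : Cartan M H q)
    (hΓ : IsCocompactDiscontinuousGroup Γ H) {v : ℕ}
    (g : ℝ → (Fin v → ℝ) → Matrix (Fin m) (Fin m) ℝ)
    (hg : ContinuousOn (fun z : ℝ × (Fin v → ℝ) => g z.1 z.2) (Set.Icc 0 1 ×ˢ {0}ᶜ))
    (h0 : ∀ t ∈ Set.Icc (0 : ℝ) 1, ∀ y, y ≠ 0 → g t y ≠ 0)
    (hmem : ∀ t ∈ Set.Icc (0 : ℝ) 1, ∀ y, y ≠ 0 → ∃ k : G, M.ι k * (M.ι k)ᵀ = 1 ∧ ∃ Y ∈ q,
      g t y = M.ι k * Y * (M.ι k)ᵀ) :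
    ∃ E : Submodule ℝ (Matrix (Fin m) (Fin m) ℝ), finrank ℝ E + finrank ℝ q = finrank ℝ p ∧
      ∃ Φ : ℝ → E × (Fin v → ℝ) → p,
        ContinuousOn (fun z : ℝ × (E × (Fin v → ℝ)) => Φ z.1 z.2) (Set.Icc 0 1 ×ˢ {0}ᶜ) ∧
        (∀ t ∈ Set.Icc (0 : ℝ) 1, ∀ z, z ≠ 0 → Φ t z ≠ 0) ∧
        (∀ t ∈ Set.Icc (0 : ℝ) 1, (∀ y, y ≠ 0 → g t (-y) = -g t y) → ∀ z, Φ t (-z) = -Φ t z) ∧
        (∀ t ∈ Set.Icc (0 : ℝ) 1, ∀ t' ∈ Set.Icc (0 : ℝ) 1, ∀ S : Fin v → Bool,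
          (∀ y, y ≠ 0 → g t (chg S y) = g t' y) → ∀ z, Φ t (z.1, chg S z.2) = Φ t' z) := by
  classical
  obtain ⟨F, hFc, hF⟩ := odd_map M hG hH hΓ
  obtain ⟨E, hE, hE1, hE2⟩ := Pool.Agent.Helper20.CKP.finrank_perp q p
  have hqp := cartan_le hG hH
  have hx0 : ∀ x : E, x ≠ 0 → (x : Matrix (Fin m) (Fin m) ℝ) ≠ 0 := fun x hx h =>
    hx (Subtype.ext h)
  have hFx := fun (x : E) (hx : x ≠ 0) => hF x ((hE x).1 x.2).1 ((hE x).1 x.2).2 (hx0 x hx)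
  have hF0 : ∀ x : E, x ≠ 0 → F x ≠ 0 := by
    intro x hx h
    refine (hFx x hx).2.2 1 ?_ 0 q.zero_mem ?_
    · rw [map_one, transpose_one, one_mul]
    · rw [h, mul_zero, zero_mul]
  have hgp : ∀ t ∈ Set.Icc (0 : ℝ) 1, ∀ y, y ≠ 0 → g t y ∈ p := by
    intro t ht y hy
    obtain ⟨k, hk, Y, hY, e⟩ := hmem t ht y hy
    rw [e]
    exact cartan_conj hG (hqp hY) (Subgroup.mem_top k) hk
  let f₁ : E → Matrix (Fin m) (Fin m) ℝ :=
    resc (fun x : E => fro (x : Matrix (Fin m) (Fin m) ℝ)) fun x => F x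
  let f₂ : ℝ → (Fin v → ℝ) → Matrix (Fin m) (Fin m) ℝ := fun t => resc (fun y => ‖y‖) (g t)
  have hf₁ : Continuous f₁ := by
    refine continuous_resc (continuous_fro.comp continuous_subtype_val) ?_ ?_ hF0
    · exact fro_zero
    refine hFc.comp continuous_subtype_val.continuousOn ?_
    intro x hx
    exact ⟨((hE x).1 x.2).1, ((hE x).1 x.2).2, hx0 x hx⟩
  have hf₁0 : f₁ 0 = 0 := by
    show (fro (0 : Matrix (Fin m) (Fin m) ℝ) * _) • _ = (0 : Matrix (Fin m) (Fin m) ℝ)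
    rw [fro_zero, zero_mul, zero_smul]
  have hf₂0 : ∀ t, f₂ t 0 = 0 := by
    intro t
    show (‖(0 : Fin v → ℝ)‖ * _) • _ = (0 : Matrix (Fin m) (Fin m) ℝ)
    rw [norm_zero, zero_mul, zero_smul]
  have hp₁ : ∀ x, f₁ x ∈ p := by
    intro x
    by_cases hx : x = 0
    · rw [hx, hf₁0]
      exact p.zero_mem
    · exact p.smul_mem _ (hFx x hx).1
  have hp₂ : ∀ t ∈ Set.Icc (0 : ℝ) 1, ∀ y, f₂ t y ∈ p := by
    intro t ht y
    by_cases hy : y = 0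
    · rw [hy, hf₂0]
      exact p.zero_mem
    · exact p.smul_mem _ (hgp t ht y hy)
  let Φ : ℝ → E × (Fin v → ℝ) → p := fun t z =>
    if h : t ∈ Set.Icc (0 : ℝ) 1 then ⟨f₁ z.1 - f₂ t z.2, p.sub_mem (hp₁ _) (hp₂ t h _)⟩ else 0
  have hΦv : ∀ t ∈ Set.Icc (0 : ℝ) 1, ∀ z, (Φ t z : Matrix (Fin m) (Fin m) ℝ) =
      f₁ z.1 - f₂ t z.2 := by
    intro t ht z
    simp only [Φ, dif_pos ht]
  have hne₁ : ∀ x : E, x ≠ 0 → ∃ c : ℝ, 0 < c ∧ f₁ x = c • F x := fun x hx =>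
    ⟨_, mul_pos (fro_pos (hx0 x hx)) (inv_pos.2 (fro_pos (hF0 x hx))), rfl⟩
  have hne₂ : ∀ t ∈ Set.Icc (0 : ℝ) 1, ∀ y : Fin v → ℝ, y ≠ 0 →
      ∃ c : ℝ, 0 < c ∧ f₂ t y = c • g t y := fun t ht y hy =>
    ⟨_, mul_pos (norm_pos_iff.2 hy) (inv_pos.2 (fro_pos (h0 t ht y hy))), rfl⟩
  refine ⟨E, le_antisymm (hE2 hqp hG.symm) hE1, Φ, ?_, ?_, ?_, ?_⟩
  · have h1 : ContinuousOn (fun z : ℝ × (E × (Fin v → ℝ)) => f₁ z.2.1 - f₂ z.1 z.2.2)
        (Set.Icc 0 1 ×ˢ {0}ᶜ) := by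
      refine (hf₁.comp (continuous_fst.comp continuous_snd)).continuousOn.sub ?_
      refine (continuousOn_resc hg h0).comp (t := Set.Icc 0 1 ×ˢ Set.univ)
        (f := fun z : ℝ × (E × (Fin v → ℝ)) => (z.1, z.2.2)) (by fun_prop) ?_
      rintro z hz
      exact ⟨hz.1, trivial⟩
    rw [continuousOn_iff_continuous_domRestrict] at h1 ⊢
    refine continuous_induced_rng.2 ?_
    convert h1 using 1
    funext z
    exact hΦv _ z.2.1 _
  · rintro t ht ⟨x, y⟩ hz h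
    have h1 : f₁ x - f₂ t y = 0 := by
      have h3 : (Φ t (x, y) : Matrix (Fin m) (Fin m) ℝ) = 0 := by
        rw [h]
        rfl
      rwa [hΦv t ht] at h3
    have h2 : f₁ x = f₂ t y := sub_eq_zero.1 h1
    by_cases hx : x = 0
    · by_cases hy : y = 0
      · exact hz (by rw [hx, hy]; rfl)
      · obtain ⟨c, hc, e⟩ := hne₂ t ht y hy
        rw [hx, hf₁0, e] at h2
        exact h0 t ht y hy ((smul_eq_zero.1 h2.symm).resolve_left hc.ne')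
    · obtain ⟨c, hc, e⟩ := hne₁ x hx
      by_cases hy : y = 0
      · rw [hy, hf₂0, e] at h2
        exact hF0 x hx ((smul_eq_zero.1 h2).resolve_left hc.ne')
      · obtain ⟨c', -, e'⟩ := hne₂ t ht y hy
        obtain ⟨k, hk, Y, hY, ek⟩ := hmem t ht y hy
        refine (hFx x hx).2.2 k hk ((c⁻¹ * c') • Y) (q.smul_mem _ hY) ?_
        have h4 : F x = (c⁻¹ * c') • g t y := by
          rw [mul_smul, ← e', ← h2, e, smul_smul, inv_mul_cancel₀ hc.ne', one_smul]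
        rw [h4, ek, mul_smul_comm, smul_mul_assoc]
  · intro t ht hodd z
    refine Subtype.ext ?_
    rw [Submodule.coe_neg, hΦv t ht, hΦv t ht]
    have h1 : f₁ (-z.1) = -f₁ z.1 := by
      by_cases hx : z.1 = 0
      · rw [hx, neg_zero, hf₁0, neg_zero]
      · show (fro (-(z.1 : Matrix (Fin m) (Fin m) ℝ)) *
          (fro (F (-(z.1 : Matrix (Fin m) (Fin m) ℝ))))⁻¹) •
          F (-(z.1 : Matrix (Fin m) (Fin m) ℝ)) = -((fro (z.1 : Matrix (Fin m) (Fin m) ℝ) *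
            (fro (F (z.1 : Matrix (Fin m) (Fin m) ℝ)))⁻¹) • F (z.1 : Matrix (Fin m) (Fin m) ℝ))
        rw [(hFx z.1 hx).2.1, fro_neg, fro_neg, smul_neg]
    have h2 : f₂ t (-z.2) = -f₂ t z.2 := by
      by_cases hy : z.2 = 0
      · rw [hy, neg_zero, hf₂0, neg_zero]
      · show (‖-z.2‖ * (fro (g t (-z.2)))⁻¹) • g t (-z.2) =
          -((‖z.2‖ * (fro (g t z.2))⁻¹) • g t z.2)
        rw [hodd _ hy, norm_neg, fro_neg, smul_neg]
    show f₁ (-z.1) - f₂ t (-z.2) = -(f₁ z.1 - f₂ t z.2)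
    rw [h1, h2]
    abel
  · intro t ht t' ht' S hS z
    refine Subtype.ext ?_
    rw [hΦv t ht, hΦv t' ht']
    have h2 : f₂ t (chg S z.2) = f₂ t' z.2 := by
      by_cases hy : z.2 = 0
      · have h3 : chg S z.2 = 0 := by
          rw [hy]
          funext i
          unfold chg
          split_ifs <;> simp
        rw [h3, hy, hf₂0, hf₂0]
      · show (‖chg S z.2‖ * (fro (g t (chg S z.2)))⁻¹) • g t (chg S z.2) =
          (‖z.2‖ * (fro (g t' z.2))⁻¹) • g t' z.2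
        rw [hS _ hy, norm_chg]
    show f₁ z.1 - f₂ t (chg S z.2) = f₁ z.1 - f₂ t' z.2
    rw [h2]

/-- If there is a cocompact discontinuous group, an odd map from a sphere to the set of the nonzero
conjugates of the elements of `q` which is homotopic in this set to a map invariant for a change of
signs has a source of dimension less than `dim q - 1`. -/
theorem even_coindex (M : MatGroup G m) {p q : Submodule ℝ (Matrix (Fin m) (Fin m) ℝ)}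
    {H Γ : Subgroup G} (hG : Cartan M ⊤ p) (hH : Cartan M H q)
    (hΓ : IsCocompactDiscontinuousGroup Γ H) {v : ℕ}
    (g : ℝ → (Fin v → ℝ) → Matrix (Fin m) (Fin m) ℝ)
    (hg : ContinuousOn (fun z : ℝ × (Fin v → ℝ) => g z.1 z.2) (Set.Icc 0 1 ×ˢ {0}ᶜ))
    (h0 : ∀ t ∈ Set.Icc (0 : ℝ) 1, ∀ y, y ≠ 0 → g t y ≠ 0)
    (hmem : ∀ t ∈ Set.Icc (0 : ℝ) 1, ∀ y, y ≠ 0 → ∃ k : G, M.ι k * (M.ι k)ᵀ = 1 ∧ ∃ Y ∈ q,
      g t y = M.ι k * Y * (M.ι k)ᵀ)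
    (hodd : ∀ y, y ≠ 0 → g 0 (-y) = -g 0 y) (S : Fin v → Bool) (hS : ∃ i, S i = true)
    (hev : ∀ y, y ≠ 0 → g 1 (chg S y) = g 1 y) : v < finrank ℝ q := by
  have h01 : (0 : ℝ) ∈ Set.Icc (0 : ℝ) 1 := ⟨le_rfl, zero_le_one⟩
  have h11 : (1 : ℝ) ∈ Set.Icc (0 : ℝ) 1 := ⟨zero_le_one, le_rfl⟩
  have hle : v ≤ finrank ℝ q := by
    refine odd_coindex M hG hH hΓ (g 0) ?_ hodd (h0 0 h01) (hmem 0 h01)
    exact hg.comp (f := fun y : Fin v → ℝ => ((0 : ℝ), y)) (by fun_prop) fun y hy => ⟨h01, hy⟩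
  refine lt_of_le_of_ne hle fun he => ?_
  obtain ⟨E, hE, Φ, h1, h2, h3, h4⟩ := exists_join M hG hH hΓ g hg h0 hmem
  exact no_even_homotopy Φ h1 (by rw [he]; exact hE) (fun z _ => h3 0 h01 hodd z) h2 S hS
    fun z _ => h4 1 h11 1 h11 S hev z

end Pool.Agent.Helper20.EH
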