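import Pool.Agent.Helper20.EH.Ring

set_option autoImplicit false

/-!
# Homotopies of maps of spheres, from an odd map to a map invariant for a change of signs
-/

namespace Pool.Agent.Helper20.EH

open Module Pool.Agent.Helper29.ZBU

/-- The change of the signs of the coordinates in `S`. -/
def chg {v : ℕ} (S : Fin v → Bool) (y : Fin v → ℝ) : Fin v → ℝ :=
  fun i => if S i = true then -y i else y i

theorem chg_ne_zero {v : ℕ} {S : Fin v → Bool} {y : Fin v → ℝ} (hy : y ≠ 0) : chg S y ≠ 0 := by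
  intro h
  apply hy
  funext i
  have h1 := congrFun h i
  unfold chg at h1
  split_ifs at h1
  · simpa using h1
  · simpa using h1

theorem norm_chg {v : ℕ} (S : Fin v → Bool) (y : Fin v → ℝ) : ‖chg S y‖ = ‖y‖ := by
  have h1 : ∀ i, ‖chg S y i‖ = ‖y i‖ := by
    intro i
    unfold chg
    split_ifs
    · rw [norm_neg]
    · rfl
  refine le_antisymm ?_ ?_
  · rw [pi_norm_le_iff_of_nonneg (norm_nonneg _)]
    intro i
    rw [h1]
    exact norm_le_pi_norm y i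
  · rw [pi_norm_le_iff_of_nonneg (norm_nonneg _)]
    intro i
    rw [← h1]
    exact norm_le_pi_norm (chg S y) i

/-- The coordinates. -/
noncomputable def coord (E : Type) [AddCommGroup E] [Module ℝ E] [FiniteDimensional ℝ E] (v : ℕ) :
    ((Fin (finrank ℝ E) ⊕ Fin v) → ℝ) ≃ₗ[ℝ] E × (Fin v → ℝ) :=
  (LinearEquiv.sumArrowLequivProdArrow (Fin (finrank ℝ E)) (Fin v) ℝ ℝ).trans
    ((LinearEquiv.ofFinrankEq (Fin (finrank ℝ E) → ℝ) E (by rw [finrank_fin_fun])).prodCongr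
      (LinearEquiv.refl ℝ (Fin v → ℝ)))

theorem coord_chg {E : Type} [AddCommGroup E] [Module ℝ E] [FiniteDimensional ℝ E] {v : ℕ}
    (S : Fin v → Bool) (z : (Fin (finrank ℝ E) ⊕ Fin v) → ℝ) :
    coord E v (negR (Sum.elim (fun _ => false) S) true z) =
      ((coord E v z).1, chg S (coord E v z).2) := by
  have h1 : negR (Sum.elim (fun _ => false) S) true z =
      Sum.elim (fun i => z (Sum.inl i)) (chg S fun i => z (Sum.inr i)) := by
    funext k
    rcases k with k | k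
    · show (if (false : Bool) = true then _ else _) = _
      rw [if_neg (by simp)]
      rfl
    · rfl
  rw [h1]
  refine Prod.ext ?_ ?_
  · rfl
  · rfl

variable {E W : Type} [AddCommGroup E] [Module ℝ E] [TopologicalSpace E]
  [IsTopologicalAddGroup E] [ContinuousSMul ℝ E] [T2Space E] [FiniteDimensional ℝ E]
  [AddCommGroup W] [Module ℝ W] [TopologicalSpace W]
  [IsTopologicalAddGroup W] [ContinuousSMul ℝ W] [T2Space W] [FiniteDimensional ℝ W]

/-- The map of the ring. -/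
noncomputable def ringMap {v d : ℕ} (B : W ≃ₗ[ℝ] (Fin d → ℝ)) (Φ : ℝ → E × (Fin v → ℝ) → W)
    (z : (Fin (finrank ℝ E) ⊕ Fin v) → ℝ) : Fin d → ℝ :=
  B (Φ (2 - 2 * ‖z‖) (coord E v (‖z‖⁻¹ • z)))

theorem coord_ne_zero {v : ℕ} {z : (Fin (finrank ℝ E) ⊕ Fin v) → ℝ} (hz : z ≠ 0) :
    coord E v (‖z‖⁻¹ • z) ≠ 0 := by
  intro h
  rw [LinearEquiv.map_eq_zero_iff, smul_eq_zero, inv_eq_zero, norm_eq_zero, or_self] at h
  exact hz h

theorem ne_zero_of_ring {κ : Type} [Fintype κ] {z : κ → ℝ} (h : 1 / 2 ≤ ‖z‖) : z ≠ 0 := by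
  intro h0
  rw [h0, norm_zero] at h
  norm_num at h

theorem continuousOn_ringMap {v d : ℕ} (B : W ≃ₗ[ℝ] (Fin d → ℝ)) (Φ : ℝ → E × (Fin v → ℝ) → W)
    (hΦ : ContinuousOn (fun z : ℝ × (E × (Fin v → ℝ)) => Φ z.1 z.2) (Set.Icc 0 1 ×ˢ {0}ᶜ)) :
    ContinuousOn (ringMap B Φ) {z | 1 / 2 ≤ ‖z‖ ∧ ‖z‖ ≤ 1} := by
  have hBc : Continuous B := (B : W →ₗ[ℝ] (Fin d → ℝ)).continuous_of_finiteDimensional
  have hAc : Continuous (coord E v) :=
    LinearMap.continuous_of_finiteDimensional (coord E v).toLinearMap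
  refine hBc.comp_continuousOn (hΦ.comp (t := Set.Icc 0 1 ×ˢ {0}ᶜ)
    (f := fun z : (Fin (finrank ℝ E) ⊕ Fin v) → ℝ => (2 - 2 * ‖z‖, coord E v (‖z‖⁻¹ • z))) ?_ ?_)
  · refine ContinuousOn.prodMk (by fun_prop) (hAc.comp_continuousOn ?_)
    refine ContinuousOn.smul (ContinuousOn.inv₀ continuous_norm.continuousOn ?_) continuousOn_id
    intro z hz
    exact norm_ne_zero_iff.2 (ne_zero_of_ring hz.1)
  · rintro z ⟨h1, h2⟩
    refine ⟨⟨?_, ?_⟩, coord_ne_zero (ne_zero_of_ring h1)⟩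
    · show 0 ≤ 2 - 2 * ‖z‖
      linarith
    · show 2 - 2 * ‖z‖ ≤ 1
      linarith

theorem ringMap_odd {v d : ℕ} (B : W ≃ₗ[ℝ] (Fin d → ℝ)) (Φ : ℝ → E × (Fin v → ℝ) → W)
    (hodd : ∀ z, z ≠ 0 → Φ 0 (-z) = -Φ 0 z) (z : (Fin (finrank ℝ E) ⊕ Fin v) → ℝ)
    (hz : ‖z‖ = 1) : ringMap B Φ (-z) = -ringMap B Φ z := by
  have hz0 : z ≠ 0 := ne_zero_of_ring (by rw [hz]; norm_num)
  have h1 : ringMap B Φ z = B (Φ 0 (coord E v (‖z‖⁻¹ • z))) := by
    unfold ringMap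
    rw [hz]
    norm_num
  have h2 : ringMap B Φ (-z) = B (Φ 0 (coord E v (‖z‖⁻¹ • -z))) := by
    unfold ringMap
    rw [norm_neg, hz]
    norm_num
  rw [h1, h2, smul_neg, map_neg, hodd _ (coord_ne_zero hz0), map_neg]

theorem ringMap_ne {v d : ℕ} (B : W ≃ₗ[ℝ] (Fin d → ℝ)) (Φ : ℝ → E × (Fin v → ℝ) → W)
    (h0 : ∀ t ∈ Set.Icc (0 : ℝ) 1, ∀ z, z ≠ 0 → Φ t z ≠ 0)
    (z : (Fin (finrank ℝ E) ⊕ Fin v) → ℝ) (h1 : 1 / 2 ≤ ‖z‖) (h2 : ‖z‖ ≤ 1) :
    ringMap B Φ z ≠ 0 := by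
  intro h
  exact h0 (2 - 2 * ‖z‖) ⟨by linarith, by linarith⟩ _ (coord_ne_zero (ne_zero_of_ring h1))
    (B.map_eq_zero_iff.1 h)

/-- A map of spheres of the same dimension which is odd is not homotopic to a map which is
invariant for a change of signs. -/
theorem no_even_homotopy {v : ℕ} (Φ : ℝ → E × (Fin v → ℝ) → W)
    (hΦ : ContinuousOn (fun z : ℝ × (E × (Fin v → ℝ)) => Φ z.1 z.2) (Set.Icc 0 1 ×ˢ {0}ᶜ))
    (hdim : finrank ℝ E + v = finrank ℝ W) (hodd : ∀ z, z ≠ 0 → Φ 0 (-z) = -Φ 0 z)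
    (h0 : ∀ t ∈ Set.Icc (0 : ℝ) 1, ∀ z, z ≠ 0 → Φ t z ≠ 0) (S : Fin v → Bool)
    (hS : ∃ i, S i = true)
    (hev : ∀ z : E × (Fin v → ℝ), z ≠ 0 → Φ 1 (z.1, chg S z.2) = Φ 1 z) : False := by
  let B : W ≃ₗ[ℝ] (Fin (finrank ℝ W) → ℝ) :=
    LinearEquiv.ofFinrankEq _ _ (by rw [Module.finrank_fin_fun])
  obtain ⟨i, hi⟩ := hS
  obtain ⟨z, h1, h2, h3⟩ := ring_zero (κ := Fin (finrank ℝ E) ⊕ Fin v) (d := finrank ℝ W)
    (by rw [Fintype.card_sum, Fintype.card_fin, Fintype.card_fin, hdim])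
    (Sum.elim (fun _ => false) S) ⟨Sum.inr i, hi⟩ (ringMap B Φ) (continuousOn_ringMap B Φ hΦ)
    (ringMap_odd B Φ hodd) (by
      intro z hz
      have hz0 : z ≠ 0 := ne_zero_of_ring hz.ge
      have hn : ‖negR (Sum.elim (fun _ => false) S) true z‖ = ‖z‖ := by
        have h1 : ∀ k, ‖negR (Sum.elim (fun _ => false) S) true z k‖ = ‖z k‖ := by
          intro k
          unfold negR
          split_ifs
          · rw [norm_neg]
          · rfl
        refine le_antisymm ?_ ?_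
        · rw [pi_norm_le_iff_of_nonneg (norm_nonneg _)]
          intro k
          rw [h1]
          exact norm_le_pi_norm z k
        · rw [pi_norm_le_iff_of_nonneg (norm_nonneg _)]
          intro k
          rw [← h1]
          exact norm_le_pi_norm (negR (Sum.elim (fun _ => false) S) true z) k
      have hsm : ‖z‖⁻¹ • negR (Sum.elim (fun _ => false) S) true z =
          negR (Sum.elim (fun _ => false) S) true (‖z‖⁻¹ • z) := by
        funext k
        show ‖z‖⁻¹ * (if _ then -z k else z k) = if _ then -(‖z‖⁻¹ * z k) else ‖z‖⁻¹ * z k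
        split_ifs
        · rw [mul_neg]
        · rfl
      have h4 : (2 : ℝ) - 2 * ‖z‖ = 1 := by
        rw [hz]
        norm_num
      unfold ringMap
      rw [hn, h4, hsm, coord_chg, hev _ (coord_ne_zero hz0)])
  exact ringMap_ne B Φ h0 z h1 h2 h3

end Pool.Agent.Helper20.EH
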