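import Pool.Agent.Helper20.EH.Crit
import Pool.Agent.Helper59.ZD.Ring

set_option autoImplicit false

/-!
# Homotopies of maps of spheres, from an odd map to its reversal
-/

open NormedSpace Filter Topology Matrix Module Pool.Agent.Helper17.CKF Pool.Agent.Helper40.CK
open Pool.Agent.Helper29.CKP Pool.Agent.Helper29.ZBU

namespace Pool.Agent.Helper20.EH

section

variable {E W : Type} [AddCommGroup E] [Module ℝ E] [TopologicalSpace E]
  [IsTopologicalAddGroup E] [ContinuousSMul ℝ E] [T2Space E] [FiniteDimensional ℝ E]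
  [AddCommGroup W] [Module ℝ W] [TopologicalSpace W]
  [IsTopologicalAddGroup W] [ContinuousSMul ℝ W] [T2Space W] [FiniteDimensional ℝ W]

/-- The coordinates of `S`. -/
def coordSet (e : ℕ) {v : ℕ} (S : Fin v → Bool) : Finset (Fin e ⊕ Fin v) :=
  (Finset.univ.filter fun i => S i = true).map Function.Embedding.inr

theorem flip_coordSet (e : ℕ) {v : ℕ} (S : Fin v → Bool) (z : Fin e ⊕ Fin v → ℝ) :
    Pool.Agent.Helper59.ZD.flip (coordSet e S) z = negR (Sum.elim (fun _ => false) S) true z := by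
  funext k
  unfold Pool.Agent.Helper59.ZD.flip negR coordSet
  rcases k with k | k
  · rw [if_neg (by simp), if_neg (by simp)]
  · simp

/-- A map of spheres of the same dimension which is odd is not homotopic to its composition with
a change of an odd number of signs. -/
theorem no_reversal {v : ℕ} (Φ : ℝ → E × (Fin v → ℝ) → W)
    (hΦ : ContinuousOn (fun z : ℝ × (E × (Fin v → ℝ)) => Φ z.1 z.2) (Set.Icc 0 1 ×ˢ {0}ᶜ))
    (hdim : finrank ℝ E + v = finrank ℝ W) (hodd : ∀ z, z ≠ 0 → Φ 0 (-z) = -Φ 0 z)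
    (h0 : ∀ t ∈ Set.Icc (0 : ℝ) 1, ∀ z, z ≠ 0 → Φ t z ≠ 0) (S : Fin v → Bool)
    (hS : Odd (Finset.univ.filter fun i => S i = true).card)
    (hev : ∀ z : E × (Fin v → ℝ), z ≠ 0 → Φ 0 (z.1, chg S z.2) = Φ 1 z) : False := by
  let B : W ≃ₗ[ℝ] (Fin (finrank ℝ W) → ℝ) :=
    LinearEquiv.ofFinrankEq _ _ (by rw [Module.finrank_fin_fun])
  have hset : {z : Fin (finrank ℝ E) ⊕ Fin v → ℝ | ‖z‖ ≤ 1 ∧ 1 / 2 ≤ ‖z‖} =
      {z | 1 / 2 ≤ ‖z‖ ∧ ‖z‖ ≤ 1} := by
    ext z
    exact and_comm
  obtain ⟨z, h1, h2, h3⟩ := Pool.Agent.Helper59.ZD.reversal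
    (κ := Fin (finrank ℝ E) ⊕ Fin v) (d := finrank ℝ W)
    (by rw [Fintype.card_sum, Fintype.card_fin, Fintype.card_fin, hdim])
    (coordSet (finrank ℝ E) S) (by rw [coordSet, Finset.card_map]; exact hS)
    (ringMap B Φ) (by rw [hset]; exact continuousOn_ringMap B Φ hΦ)
    (ringMap_odd B Φ hodd) (by
      intro z hz
      have hz0 : z ≠ 0 := ne_zero_of_ring (by rw [hz]; norm_num)
      have hn : ‖negR (Sum.elim (fun _ => false) S) true z‖ = ‖z‖ := by
        have h1 : ∀ k, ‖negR (Sum.elim (fun _ => false) S) true z k‖ = ‖z k‖ := by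
          intro k
          unfold negR
          split_ifs
          · rw [norm_neg]
          · rfl
        refine le_antisymm ?_ ?_
        · rw [pi_norm_le_iff_of_nonneg (norm_nonneg _)]
          intro k
          rw [h1]
          exact norm_le_pi_norm z k
        · rw [pi_norm_le_iff_of_nonneg (norm_nonneg _)]
          intro k
          rw [← h1]
          exact norm_le_pi_norm (negR (Sum.elim (fun _ => false) S) true z) k
      have h4 : ringMap B Φ ((1 / 2 : ℝ) • z) = B (Φ 1 (coord E v z)) := by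
        unfold ringMap
        have h5 : ‖(1 / 2 : ℝ) • z‖ = 1 / 2 := by
          rw [norm_smul, hz]
          norm_num
        rw [h5, smul_smul]
        norm_num
      have h5 : ringMap B Φ (negR (Sum.elim (fun _ => false) S) true z) =
          B (Φ 0 ((coord E v z).1, chg S (coord E v z).2)) := by
        unfold ringMap
        rw [hn, hz, ← coord_chg]
        norm_num
      rw [flip_coordSet, h4, h5, hev _ fun h => hz0 ((coord E v).map_eq_zero_iff.1 h)])
  exact ringMap_ne B Φ h0 z h2 h1 h3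

end

variable {m : ℕ} {G : Type} [Group G] [TopologicalSpace G] [IsTopologicalGroup G]

/-- If there is a cocompact discontinuous group, an odd map from a sphere to the set of the nonzero
conjugates of the elements of `q` which is homotopic in this set to its composition with a change
of an odd number of signs has a source of dimension less than `dim q - 1`. -/
theorem rev_coindex (M : MatGroup G m) {p q : Submodule ℝ (Matrix (Fin m) (Fin m) ℝ)}
    {H Γ : Subgroup G} (hG : Cartan M ⊤ p) (hH : Cartan M H q)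
    (hΓ : IsCocompactDiscontinuousGroup Γ H) {v : ℕ}
    (g : ℝ → (Fin v → ℝ) → Matrix (Fin m) (Fin m) ℝ)
    (hg : ContinuousOn (fun z : ℝ × (Fin v → ℝ) => g z.1 z.2) (Set.Icc 0 1 ×ˢ {0}ᶜ))
    (h0 : ∀ t ∈ Set.Icc (0 : ℝ) 1, ∀ y, y ≠ 0 → g t y ≠ 0)
    (hmem : ∀ t ∈ Set.Icc (0 : ℝ) 1, ∀ y, y ≠ 0 → ∃ k : G, M.ι k * (M.ι k)ᵀ = 1 ∧ ∃ Y ∈ q,
      g t y = M.ι k * Y * (M.ι k)ᵀ)
    (hodd : ∀ y, y ≠ 0 → g 0 (-y) = -g 0 y) (S : Fin v → Bool)
    (hS : Odd (Finset.univ.filter fun i => S i = true).card)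
    (hev : ∀ y, y ≠ 0 → g 1 y = g 0 (chg S y)) : v < finrank ℝ q := by
  have h01 : (0 : ℝ) ∈ Set.Icc (0 : ℝ) 1 := ⟨le_rfl, zero_le_one⟩
  have h11 : (1 : ℝ) ∈ Set.Icc (0 : ℝ) 1 := ⟨zero_le_one, le_rfl⟩
  have hle : v ≤ finrank ℝ q := by
    refine odd_coindex M hG hH hΓ (g 0) ?_ hodd (h0 0 h01) (hmem 0 h01)
    exact hg.comp (f := fun y : Fin v → ℝ => ((0 : ℝ), y)) (by fun_prop) fun y hy => ⟨h01, hy⟩
  refine lt_of_le_of_ne hle fun he => ?_
  obtain ⟨E, hE, Φ, h1, h2, h3, h4⟩ := exists_join M hG hH hΓ g hg h0 hmem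
  exact no_reversal Φ h1 (by rw [he]; exact hE) (fun z _ => h3 0 h01 hodd z) h2 S hS
    fun z _ => h4 0 h01 1 h11 S (fun y hy => (hev y hy).symm) z

end Pool.Agent.Helper20.EH
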