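import Pool.Agent.Helper29.ZBU.Cont

set_option autoImplicit false

/-!
# Continuous functions on a cubical ring: odd outside, invariant for a change of signs inside
-/

namespace Pool.Agent.Helper20.EH

open Finset Pool.Agent.Helper29.ZBU

variable {κ : Type} [Fintype κ] [DecidableEq κ] {d : ℕ}

/-- The sum over the flags is zero for functions which are invariant for a change of signs. -/
theorem T_even {N : ℕ} {β : κ → Bool} (hβ : ∃ k, β k = true) (s : Fin d → (κ → ℤ) → ZMod 2)
    (hs : ∀ j x, (∀ k, |x k| ≤ 2 * (N : ℤ)) → s j (neg β true x) = s j x) : T N s = 0 := by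
  classical
  obtain ⟨k₀, hk₀⟩ := hβ
  let ng : Flag κ d → Flag κ d := fun τ =>
    (fun k => if β k = true then -τ.1 k - 1 else τ.1 k, τ.2.1,
      fun k => if β k = true then !τ.2.2 k else τ.2.2 k)
  have hbi : ∀ b : Bool, bi (!b) = 1 - bi b := by
    intro b
    cases b <;> simp [bi]
  have hv : ∀ τ : Flag κ d, vtx (ng τ) = fun j => neg β true (vtx τ j) := by
    intro τ
    funext j k
    show (if ((τ.2.1.symm k : Fin d) : ℕ) < j then
        2 * (if β k = true then -τ.1 k - 1 else τ.1 k) + 1 else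
        2 * ((if β k = true then -τ.1 k - 1 else τ.1 k) +
          bi (if β k = true then !τ.2.2 k else τ.2.2 k))) =
      if β k = true then -(if ((τ.2.1.symm k : Fin d) : ℕ) < j then 2 * τ.1 k + 1 else
        2 * (τ.1 k + bi (τ.2.2 k))) else (if ((τ.2.1.symm k : Fin d) : ℕ) < j then
          2 * τ.1 k + 1 else 2 * (τ.1 k + bi (τ.2.2 k)))
    by_cases hb : β k = true
    · simp only [hb, if_true]
      split_ifs
      · ring
      · rw [hbi]
        ring
    · simp only [hb, if_false]
      rfl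
  unfold T
  refine Finset.sum_involution (fun τ _ => ng τ) ?_ ?_ ?_ ?_
  · intro τ hτ
    rw [hv]
    have h1 : ∏ j : Fin d, s j (neg β true (vtx τ j)) = ∏ j : Fin d, s j (vtx τ j) :=
      Finset.prod_congr rfl fun j _ => hs j _ fun k => vtx_abs hτ _ _
    rw [h1]
    exact CharTwo.add_self_eq_zero _
  · intro τ _ _ h
    have h1 := congrFun (congrArg (fun σ : Flag κ d => σ.2.2) h) k₀
    simp [ng, hk₀] at h1
  · intro τ hτ
    rw [mem_flags] at hτ ⊢
    intro k
    show -(N : ℤ) ≤ (if β k = true then -τ.1 k - 1 else τ.1 k) ∧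
      (if β k = true then -τ.1 k - 1 else τ.1 k) < N
    have := hτ k
    split_ifs
    · omega
    · exact this
  · intro τ _
    refine Prod.ext ?_ (Prod.ext rfl ?_)
    · funext k
      show (if β k = true then -(if β k = true then -τ.1 k - 1 else τ.1 k) - 1 else
        (if β k = true then -τ.1 k - 1 else τ.1 k)) = τ.1 k
      split_ifs
      · ring
      · rfl
    · funext k
      show (if β k = true then !(if β k = true then !τ.2.2 k else τ.2.2 k) else
        (if β k = true then !τ.2.2 k else τ.2.2 k)) = τ.2.2 k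
      split_ifs
      · simp
      · rfl

/-- A flag outside of the inner cube stays away from the inner cube. -/
theorem vtx_outer {N' : ℕ} {τ : Flag κ d} (hτ : τ ∉ flags κ d N') (j : ℕ) :
    ∃ k, 2 * (N' : ℤ) ≤ |vtx τ j k| := by
  rw [mem_flags] at hτ
  push Not at hτ
  obtain ⟨k, hk⟩ := hτ
  refine ⟨k, ?_⟩
  have hb : bi (τ.2.2 k) = 0 ∨ bi (τ.2.2 k) = 1 := by
    cases τ.2.2 k <;> simp [bi]
  by_cases h1 : -(N' : ℤ) ≤ τ.1 k
  · have h2 := hk h1
    refine le_trans ?_ (le_abs_self _)
    unfold vtx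
    split_ifs <;> omega
  · push Not at h1
    refine le_trans ?_ (neg_le_abs _)
    unfold vtx
    split_ifs <;> omega

/-- A continuous map of the ring to the space of the same dimension which is odd on the outer
boundary and invariant for a change of signs on the inner boundary has a zero. -/
theorem ring_zero (hd : Fintype.card κ = d) (β : κ → Bool) (hβ : ∃ k, β k = true)
    (f : (κ → ℝ) → Fin d → ℝ) (hf : ContinuousOn f {x | 1 / 2 ≤ ‖x‖ ∧ ‖x‖ ≤ 1})
    (h1 : ∀ x, ‖x‖ = 1 → f (-x) = -f x)
    (h2 : ∀ x, ‖x‖ = 1 / 2 → f (negR β true x) = f x) :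
    ∃ x, 1 / 2 ≤ ‖x‖ ∧ ‖x‖ ≤ 1 ∧ f x = 0 := by
  classical
  by_contra hc
  push Not at hc
  obtain ⟨k₀, hk₀⟩ := hβ
  have : Nonempty κ := ⟨k₀⟩
  let K : Set (κ → ℝ) := {x | 1 / 2 ≤ ‖x‖ ∧ ‖x‖ ≤ 1}
  have hK : IsCompact K := by
    have h3 : K = Metric.closedBall 0 1 ∩ {x | 1 / 2 ≤ ‖x‖} := by
      ext x
      simp only [K, Set.mem_setOf_eq, Set.mem_inter_iff, mem_closedBall_zero_iff]
      exact and_comm
    rw [h3]
    exact (isCompact_closedBall _ _).inter_right (isClosed_le continuous_const continuous_norm)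
  have hne : K.Nonempty := by
    refine ⟨fun _ => 1, ?_⟩
    have : ‖(fun _ => 1 : κ → ℝ)‖ = 1 := by
      rw [pi_norm_const, norm_one]
    exact ⟨by rw [this]; norm_num, this.le⟩
  obtain ⟨x₀, hx₀, hmin⟩ := hK.exists_isMinOn hne hf.norm
  have hδ : 0 < ‖f x₀‖ := norm_pos_iff.mpr (hc x₀ hx₀.1 hx₀.2)
  have hδ' : ∀ x ∈ K, ‖f x₀‖ ≤ ‖f x‖ := fun x hx => hmin hx
  have huc := hK.uniformContinuousOn_of_continuous hf
  rw [Metric.uniformContinuousOn_iff] at huc
  obtain ⟨δ, hδ0, hδ1⟩ := huc (‖f x₀‖ / 2) (by positivity)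
  obtain ⟨n, hn⟩ := exists_nat_gt (1 / δ)
  let N' : ℕ := n + 1
  let N : ℕ := 2 * N'
  have hN'0 : 0 < N' := Nat.succ_pos n
  have hN : 0 < N := by omega
  have hNR' : (0 : ℝ) < N' := by exact_mod_cast hN'0
  have hNR : (0 : ℝ) < N := by exact_mod_cast hN
  have hNδ : 1 / (N : ℝ) < δ := by
    have h3 : 1 / δ < N' := by
      refine hn.trans ?_
      show (n : ℝ) < ((n + 1 : ℕ) : ℝ)
      push_cast
      linarith
    have h4 : (N' : ℝ) ≤ N := by
      show (N' : ℝ) ≤ ((2 * N' : ℕ) : ℝ)
      push_cast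
      linarith
    rw [div_lt_iff₀ hδ0] at h3
    rw [div_lt_iff₀ hNR]
    have h5 : (N' : ℝ) * δ ≤ N * δ := mul_le_mul_of_nonneg_right h4 hδ0.le
    linarith
  let β₀ : κ → Unit := fun _ => ()
  let s : Fin d → (κ → ℤ) → ZMod 2 := fun j x =>
    if ∀ k, |x k| ≤ 2 * (N : ℤ) then
      if ∃ k, (N : ℤ) ≤ |x k| then
        if f (pt N x) j < 0 then 1 else if 0 < f (pt N x) j then 0 else rho β₀ N () x
      else 0
    else rho β₀ N () x
  have hnegabs : ∀ (β' : κ → Bool) (x : κ → ℤ) k, |neg β' true x k| = |x k| := by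
    intro β' x k
    unfold neg
    split_ifs
    · rw [abs_neg]
    · rfl
  have hnegabs₀ : ∀ (x : κ → ℤ) k, |neg β₀ () x k| = |x k| := by
    intro x k
    unfold neg
    rw [if_pos rfl, abs_neg]
  have hpt : ∀ x : κ → ℤ, (∀ k, |x k| ≤ 2 * (N : ℤ)) → ‖pt N x‖ ≤ 1 := by
    intro x hx
    rw [pi_norm_le_iff_of_nonneg zero_le_one]
    intro k
    show ‖(x k : ℝ) / (2 * N)‖ ≤ 1
    rw [Real.norm_eq_abs, abs_div, abs_of_pos (show (0 : ℝ) < 2 * N by positivity),
      div_le_one (by positivity)]
    have h4 : ((|x k| : ℤ) : ℝ) ≤ ((2 * (N : ℤ) : ℤ) : ℝ) := by exact_mod_cast hx k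
    push_cast at h4
    exact h4
  have hpt' : ∀ x : κ → ℤ, (∃ k, (N : ℤ) ≤ |x k|) → 1 / 2 ≤ ‖pt N x‖ := by
    rintro x ⟨k, hk⟩
    refine le_trans ?_ (norm_le_pi_norm (pt N x) k)
    show 1 / 2 ≤ ‖(x k : ℝ) / (2 * N)‖
    rw [Real.norm_eq_abs, abs_div, abs_of_pos (show (0 : ℝ) < 2 * N by positivity),
      le_div_iff₀ (by positivity)]
    have h4 : (((N : ℤ) : ℤ) : ℝ) ≤ ((|x k| : ℤ) : ℝ) := by exact_mod_cast hk
    push_cast at h4
    linarith
  -- the boundary values
  have hs : ∀ j, Eqv β₀ N (fun _ => 1) (s j) := by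
    rintro j ⟨⟩ x hx
    show s j (neg β₀ () x) = s j x + 1
    have hr : rho β₀ N () (neg β₀ () x) = rho β₀ N () x + 1 := rho_neg_self β₀ hN () x hx
    show (if ∀ k, |neg β₀ () x k| ≤ 2 * (N : ℤ) then
      if ∃ k, (N : ℤ) ≤ |neg β₀ () x k| then
        if f (pt N (neg β₀ () x)) j < 0 then 1 else
          if 0 < f (pt N (neg β₀ () x)) j then 0 else rho β₀ N () (neg β₀ () x)
      else 0
      else rho β₀ N () (neg β₀ () x)) = (if ∀ k, |x k| ≤ 2 * (N : ℤ) then
      if ∃ k, (N : ℤ) ≤ |x k| then
        if f (pt N x) j < 0 then 1 else if 0 < f (pt N x) j then 0 else rho β₀ N () x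
      else 0
      else rho β₀ N () x) + 1
    simp only [hnegabs₀]
    by_cases h3 : ∀ k, |x k| ≤ 2 * (N : ℤ)
    · obtain ⟨k, -, hk⟩ := id hx
      have h4 : ∃ k, (N : ℤ) ≤ |x k| := ⟨k, by rw [hk]; omega⟩
      rw [if_pos h3, if_pos h4, if_pos h3, if_pos h4]
      have h5 : ‖pt N x‖ = 1 := by
        refine le_antisymm (hpt x h3) ?_
        refine le_trans ?_ (norm_le_pi_norm (pt N x) k)
        show 1 ≤ ‖(x k : ℝ) / (2 * N)‖
        rw [Real.norm_eq_abs, abs_div, abs_of_pos (show (0 : ℝ) < 2 * N by positivity),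
          le_div_iff₀ (by positivity)]
        have h4 : ((|x k| : ℤ) : ℝ) = ((2 * (N : ℤ) : ℤ) : ℝ) := by rw [hk]
        push_cast at h4
        linarith
      have h6 : pt N (neg β₀ () x) = -pt N x := by
        rw [pt_neg]
        funext k
        show (if β₀ k = () then -pt N x k else pt N x k) = -pt N x k
        rw [if_pos rfl]
      rw [h6, h1 _ h5, Pi.neg_apply, hr]
      rcases lt_trichotomy (f (pt N x) j) 0 with h | h | h
      · rw [if_neg (by linarith), if_pos (by linarith), if_pos h]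
        decide
      · rw [if_neg (by linarith), if_neg (by linarith), if_neg (by linarith), if_neg (by linarith)]
      · rw [if_pos (by linarith), if_neg (by linarith), if_pos h]
        decide
    · rw [if_neg h3, if_neg h3, hr]
  have hT : T N s = 1 := by
    rw [T_count β₀ hN hd hs]
    have h3 : (univ.filter fun σ : Fin d → Unit => (∀ _ : Fin d, (1 : ZMod 2) = 1) ∧
        ∀ i, (univ.filter fun j => σ j = i).card = (univ.filter fun k => β₀ k = i).card) =
          {fun _ => ()} := by
      ext σ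
      refine ⟨fun _ => Finset.mem_singleton.2 (Subsingleton.elim _ _),
        fun _ => Finset.mem_filter.2 ⟨mem_univ _, fun _ => rfl, ?_⟩⟩
      rintro ⟨⟩
      have h4 : (univ.filter fun j : Fin d => σ j = ()) = univ :=
        Finset.filter_true_of_mem fun _ _ => rfl
      have h5 : (univ.filter fun k : κ => β₀ k = ()) = univ :=
        Finset.filter_true_of_mem fun _ _ => rfl
      rw [h4, h5, Finset.card_univ, Finset.card_univ, Fintype.card_fin, hd]
    rw [h3, Finset.card_singleton, Nat.cast_one]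
  -- the sum over the inner flags
  have hinner : T N' s = 0 := by
    refine T_even (β := β) ⟨k₀, hk₀⟩ s ?_
    intro j x hx
    show (if ∀ k, |neg β true x k| ≤ 2 * (N : ℤ) then
      if ∃ k, (N : ℤ) ≤ |neg β true x k| then
        if f (pt N (neg β true x)) j < 0 then 1 else
          if 0 < f (pt N (neg β true x)) j then 0 else rho β₀ N () (neg β true x)
      else 0
      else rho β₀ N () (neg β true x)) = (if ∀ k, |x k| ≤ 2 * (N : ℤ) then
      if ∃ k, (N : ℤ) ≤ |x k| then
        if f (pt N x) j < 0 then 1 else if 0 < f (pt N x) j then 0 else rho β₀ N () x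
      else 0
      else rho β₀ N () x)
    simp only [hnegabs]
    have hx' : ∀ k, |x k| ≤ (N : ℤ) := by
      intro k
      have := hx k
      show |x k| ≤ ((2 * N' : ℕ) : ℤ)
      push_cast
      exact this
    have h3 : ∀ k, |x k| ≤ 2 * (N : ℤ) := fun k => (hx' k).trans (by omega)
    rw [if_pos h3, if_pos h3]
    by_cases h4 : ∃ k, (N : ℤ) ≤ |x k|
    · rw [if_pos h4, if_pos h4]
      have h5 : ‖pt N x‖ = 1 / 2 := by
        refine le_antisymm ?_ (hpt' x h4)
        rw [pi_norm_le_iff_of_nonneg (by norm_num)]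
        intro k
        show ‖(x k : ℝ) / (2 * N)‖ ≤ 1 / 2
        rw [Real.norm_eq_abs, abs_div, abs_of_pos (show (0 : ℝ) < 2 * N by positivity),
          div_le_iff₀ (by positivity)]
        have h6 : ((|x k| : ℤ) : ℝ) ≤ (((N : ℤ) : ℤ) : ℝ) := by exact_mod_cast hx' k
        push_cast at h6
        linarith
      have h6 : rho β₀ N () x = 0 := by
        refine rho_zero β₀ ?_
        rintro ⟨k, -, hk⟩
        have := hx' k
        omega
      have h7 : rho β₀ N () (neg β true x) = 0 := by
        refine rho_zero β₀ ?_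
        rintro ⟨k, -, hk⟩
        rw [hnegabs] at hk
        have := hx' k
        omega
      rw [pt_neg, h2 _ h5, h6, h7]
    · rw [if_neg h4, if_neg h4]
  -- the outer flags
  have hsum : T N' s = T N s := by
    rw [← T_eq, ← T_eq]
    refine Finset.sum_subset ?_ ?_
    · intro τ hτ
      rw [mem_flags] at hτ ⊢
      intro k
      have := hτ k
      constructor <;> omega
    · intro τ hτ hτ'
      by_contra hprod
      rw [← ne_eq, Finset.prod_ne_zero_iff] at hprod
      have hin : ∀ l, ∀ k, |vtx τ l k| ≤ 2 * (N : ℤ) := fun l k => vtx_abs hτ l k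
      have hout : ∀ l, ∃ k, (N : ℤ) ≤ |vtx τ l k| := by
        intro l
        obtain ⟨k, hk⟩ := vtx_outer hτ' l
        refine ⟨k, ?_⟩
        show ((2 * N' : ℕ) : ℤ) ≤ _
        push_cast
        exact hk
      have hmem : ∀ l, pt N (vtx τ l) ∈ K := fun l => ⟨hpt' _ (hout l), hpt _ (hin l)⟩
      have hdist : ∀ l l', dist (f (pt N (vtx τ l))) (f (pt N (vtx τ l'))) < ‖f x₀‖ / 2 := by
        intro l l'
        refine hδ1 _ (hmem l) _ (hmem l') ?_
        refine lt_of_le_of_lt ?_ hNδ
        rw [dist_pi_le_iff (by positivity)]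
        intro k
        rw [Real.dist_eq]
        unfold pt
        rw [← sub_div, abs_div, abs_of_pos (show (0 : ℝ) < 2 * N by positivity)]
        have h1 := vtx_sub τ l l' k
        have h2 : ((|vtx τ l k - vtx τ l' k| : ℤ) : ℝ) ≤ 1 := by exact_mod_cast h1
        push_cast at h2
        refine (div_le_div_of_nonneg_right h2 (by positivity)).trans ?_
        exact one_div_le_one_div_of_le hNR (by linarith)
      have hsv : ∀ j l, s j (vtx τ l) = if f (pt N (vtx τ l)) j < 0 then 1 else
          if 0 < f (pt N (vtx τ l)) j then 0 else rho β₀ N () (vtx τ l) := by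
        intro j l
        show (if ∀ k, |vtx τ l k| ≤ 2 * (N : ℤ) then
          if ∃ k, (N : ℤ) ≤ |vtx τ l k| then _ else _ else _) = _
        rw [if_pos (hin l), if_pos (hout l)]
      have hsmall : ∀ j : Fin d, |f (pt N (vtx τ 0)) j| < ‖f x₀‖ := by
        intro j
        have h1 := hprod j (mem_univ _)
        rw [hsv, hsv] at h1
        have h4 : f (pt N (vtx τ j)) j * f (pt N (vtx τ (j + 1))) j ≤ 0 := by
          by_contra hp
          push Not at hp
          apply h1
          rcases lt_trichotomy (f (pt N (vtx τ j)) j) 0 with h | h | h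
          · have h' : f (pt N (vtx τ (j + 1))) j < 0 := by
              by_contra hh
              push Not at hh
              have := mul_nonpos_of_nonpos_of_nonneg h.le hh
              linarith
            rw [if_pos h, if_pos h']
            exact CharTwo.add_self_eq_zero _
          · rw [h, zero_mul] at hp
            exact absurd hp (lt_irrefl _)
          · have h' : 0 < f (pt N (vtx τ (j + 1))) j := by
              by_contra hh
              push Not at hh
              have := mul_nonpos_of_nonneg_of_nonpos h.le hh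
              linarith
            rw [if_neg (by linarith), if_pos h, if_neg (by linarith), if_pos h']
            exact CharTwo.add_self_eq_zero _
        have h5 : |f (pt N (vtx τ j)) j| ≤
            |f (pt N (vtx τ j)) j - f (pt N (vtx τ (j + 1))) j| := by
          rw [← sq_le_sq]
          nlinarith [sq_nonneg (f (pt N (vtx τ (j + 1))) j)]
        have h6 : ∀ l l', |f (pt N (vtx τ l)) j - f (pt N (vtx τ l')) j| < ‖f x₀‖ / 2 := by
          intro l l'
          have := (dist_le_pi_dist (f (pt N (vtx τ l))) (f (pt N (vtx τ l'))) j).trans_lt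
            (hdist l l')
          rwa [Real.dist_eq] at this
        calc |f (pt N (vtx τ 0)) j|
            = |(f (pt N (vtx τ 0)) j - f (pt N (vtx τ j)) j) + f (pt N (vtx τ j)) j| := by
              rw [sub_add_cancel]
          _ ≤ |f (pt N (vtx τ 0)) j - f (pt N (vtx τ j)) j| + |f (pt N (vtx τ j)) j| :=
              abs_add_le _ _
          _ < ‖f x₀‖ / 2 + ‖f x₀‖ / 2 := add_lt_add (h6 0 j) (h5.trans_lt (h6 j (j + 1)))
          _ = ‖f x₀‖ := add_halves _
      have h7 : ‖f (pt N (vtx τ 0))‖ < ‖f x₀‖ := by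
        rw [pi_norm_lt_iff hδ]
        exact hsmall
      exact absurd (hδ' _ (hmem 0)) (not_le.mpr h7)
  rw [hinner, hT] at hsum
  exact absurd hsum (by decide)

end Pool.Agent.Helper20.EH
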